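import Mathlib
set_option autoImplicit false

namespace Pool.Agent.Lib.MP_5ee2e8_co

/-- `S` is (the edge set of) an even subgraph of the multigraph with edge set `E`, vertex set `V`
and ends `ends e` (an unordered pair, equal entries for a loop): every vertex lies on an even
number of non-loop edges of `S` (a loop adds two to the degree). -/
def IsEvenSub {V E : Type} (ends : E → Sym2 V) (S : Set E) : Prop :=
  ∀ v : V, Even (Set.ncard {f : E | f ∈ S ∧ v ∈ ends f ∧ ¬ (ends f).IsDiag})

/-- Bridgeless: every edge lies in an even subgraph. -/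
def Bridgeless {V E : Type} (ends : E → Sym2 V) : Prop :=
  ∀ e : E, ∃ S : Set E, e ∈ S ∧ IsEvenSub ends S

/-- Cubic: there are no loops and every vertex lies on exactly three edges (parallel edges are
allowed; a bridgeless graph all of whose vertices have degree three has no loops). -/
def Cubic {V E : Type} (ends : E → Sym2 V) : Prop :=
  (∀ e, ¬ (ends e).IsDiag) ∧ ∀ v, Set.ncard {e | v ∈ ends e} = 3

/-- `M` is a perfect matching: every vertex lies on exactly one edge of `M`. -/
def IsPerfectMatching {V E : Type} (ends : E → Sym2 V) (M : Set E) : Prop :=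
  ∀ v, ∃! e, e ∈ M ∧ v ∈ ends e

/-- Q1 (the frozen statement S09047): every bridgeless finite multigraph has three even subgraphs
that cover all the edges and have total length at least twice the number of edges. -/
def LengthStatement : Prop :=
  ∀ (V E : Type) [Fintype V] [Fintype E] (ends : E → Sym2 V), Bridgeless ends →
    ∃ S₁ S₂ S₃ : Set E, IsEvenSub ends S₁ ∧ IsEvenSub ends S₂ ∧ IsEvenSub ends S₃ ∧
      S₁ ∪ S₂ ∪ S₃ = Set.univ ∧ 2 * Fintype.card E ≤ S₁.ncard + S₂.ncard + S₃.ncard

/-- Q1 for all real weights `w`, of any signs: some cover by three even subgraphs has total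
`w`-length at least `2 w(E)`. -/
def WeightedStatement : Prop :=
  ∀ (V E : Type) [Fintype V] [Fintype E] (ends : E → Sym2 V), Bridgeless ends →
    ∀ w : E → ℝ, ∃ C : Fin 3 → Set E, (∀ i, IsEvenSub ends (C i)) ∧ ⋃ i, C i = Set.univ ∧
      2 * ∑ e, w e ≤ ∑ i, ∑ e, (C i).indicator w e

/-- Uniform covers: for some `N ≥ 1` there are `N` covers by three even subgraphs such that every
edge is covered exactly `2N` times in all. -/
def UniformCoverStatement : Prop :=
  ∀ (V E : Type) [Fintype V] [Fintype E] (ends : E → Sym2 V), Bridgeless ends →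
    ∃ (N : ℕ) (C : Fin N → Fin 3 → Set E), 1 ≤ N ∧ (∀ j i, IsEvenSub ends (C j i)) ∧
      (∀ j, ⋃ i, C j i = Set.univ) ∧ ∀ e, Set.ncard {q : Fin N × Fin 3 | e ∈ C q.1 q.2} = 2 * N

/-- Uniform triples: in a bridgeless cubic multigraph there are, for some `N ≥ 1`, `N` triples of
perfect matchings, each triple with empty intersection, such that every edge lies in exactly `N` of
the `3N` perfect matchings. -/
def UniformTriplesStatement : Prop :=
  ∀ (V E : Type) [Fintype V] [Fintype E] (ends : E → Sym2 V), Bridgeless ends → Cubic ends →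
    ∃ (N : ℕ) (M : Fin N → Fin 3 → Set E), 1 ≤ N ∧ (∀ j i, IsPerfectMatching ends (M j i)) ∧
      (∀ j, ⋂ i, M j i = ∅) ∧ ∀ e, Set.ncard {q : Fin N × Fin 3 | e ∈ M q.1 q.2} = N

/-- Uniform triples, only for cubic graphs without parallel edges. -/
def SimpleTriplesStatement : Prop :=
  ∀ (V E : Type) [Fintype V] [Fintype E] (ends : E → Sym2 V), Bridgeless ends → Cubic ends →
    Function.Injective ends →
    ∃ (N : ℕ) (M : Fin N → Fin 3 → Set E), 1 ≤ N ∧ (∀ j i, IsPerfectMatching ends (M j i)) ∧
      (∀ j, ⋂ i, M j i = ∅) ∧ ∀ e, Set.ncard {q : Fin N × Fin 3 | e ∈ M q.1 q.2} = N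

end Pool.Agent.Lib.MP_5ee2e8_co
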