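import Mathlib
import Pool.Agent.Lib.MP_5ee2e8_co.Defs
set_option autoImplicit false
set_option linter.unusedSectionVars false
open Finset

namespace Pool.Agent.Lib.MP_5ee2e8_co

open Classical in
private noncomputable def dl {V : Type} (u v : V) : ZMod 2 := if u = v then 1 else 0

private lemma dl_self {V : Type} (u : V) : dl u u = 1 := by simp [dl]

private lemma dl_ne {V : Type} {u v : V} (h : u ≠ v) : dl u v = 0 := by simp [dl, h]

private noncomputable def bd {V E : Type} [Fintype E] (a b : E → V) (x : E → ZMod 2) (v : V) : ZMod 2 :=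
  ∑ e, x e * (dl (a e) v + dl (b e) v)

open Classical in
private noncomputable def ind {E : Type} (S : Set E) (e : E) : ZMod 2 := if e ∈ S then 1 else 0

private lemma zmod2_cases (z : ZMod 2) : z = 0 ∨ z = 1 := by
  revert z; decide

private lemma ind_set {E : Type} (x : E → ZMod 2) : ind {e | x e = 1} = x := by
  funext e
  unfold ind
  rcases zmod2_cases (x e) with h | h <;> simp [h]

private lemma even_iff {V E : Type} [Fintype E] (ends : E → Sym2 V) (a b : E → V)
    (h : ∀ e, ends e = s(a e, b e)) (S : Set E) :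
    IsEvenSub ends S ↔ ∀ v, bd a b (ind S) v = 0 := by
  classical
  unfold IsEvenSub
  refine forall_congr' fun v => ?_
  rw [← ZMod.natCast_eq_zero_iff_even, Set.ncard_eq_toFinset_card']
  have : ((Set.toFinset {f : E | f ∈ S ∧ v ∈ ends f ∧ ¬ (ends f).IsDiag}).card : ZMod 2) =
      bd a b (ind S) v := by
    unfold bd ind dl
    rw [Finset.card_eq_sum_ones, Nat.cast_sum, Set.toFinset_ofPred, Finset.sum_filter]
    refine Finset.sum_congr rfl fun e _ => ?_
    rw [h e]
    by_cases h1 : e ∈ S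
    · by_cases h2 : a e = v
      · by_cases h3 : b e = v
        · subst h2
          simp [h1, h3]
          decide
        · subst h2
          have : ¬ a e = b e := fun h => h3 h.symm
          simp [h1, h3, this]
      · by_cases h3 : b e = v
        · subst h3
          simp [h1, h2]
        · have h2' : ¬ v = a e := fun h => h2 h.symm
          have h3' : ¬ v = b e := fun h => h3 h.symm
          simp [h1, h2, h3, h2', h3']
    · simp [h1]
  rw [this]


/-! ### Subdivision -/

/-- the `i`-th point of the path replacing the edge `e` -/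
private def pt {V E : Type} (a b : E → V) (W : E → ℕ) (e : E) (i : ℕ) : V ⊕ (Σ e : E, Fin (W e)) :=
  if i = 0 then Sum.inl (a e) else if h : i < W e then Sum.inr ⟨e, ⟨i, h⟩⟩ else Sum.inl (b e)

private lemma pt_zero {V E : Type} (a b : E → V) (W : E → ℕ) (e : E) :
    pt a b W e 0 = Sum.inl (a e) := by simp [pt]

private lemma pt_last {V E : Type} (a b : E → V) (W : E → ℕ) (hW : ∀ e, 1 ≤ W e) (e : E) :
    pt a b W e (W e) = Sum.inl (b e) := by
  have := hW e
  have h0 : W e ≠ 0 := by omega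
  simp [pt, h0]

private lemma pt_inr {V E : Type} (a b : E → V) (W : E → ℕ) (e e' : E) (i : ℕ) (j : Fin (W e'))
    (h : pt a b W e i = Sum.inr ⟨e', j⟩) : e = e' ∧ i = j.1 := by
  unfold pt at h
  split_ifs at h with h1 h2
  have h3 := Sum.inr.inj h
  cases h3
  exact ⟨rfl, rfl⟩

private lemma pt_mid {V E : Type} (a b : E → V) (W : E → ℕ) (e : E) (i : Fin (W e)) (hi : i.1 ≠ 0) :
    pt a b W e i.1 = Sum.inr ⟨e, i⟩ := by
  unfold pt
  rw [if_neg hi, dif_pos i.2]

private lemma zmod2_neg (z : ZMod 2) : -z = z := by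
  revert z; decide

private lemma zmod2_add_self (z : ZMod 2) : z + z = 0 := by
  revert z; decide

private lemma tele (n : ℕ) (g : ℕ → ZMod 2) :
    ∑ i : Fin n, (g i.1 + g (i.1 + 1)) = g 0 + g n := by
  rw [Fin.sum_univ_eq_sum_range (fun i => g i + g (i + 1)) n]
  have h := Finset.sum_range_sub g n
  have h2 : ∑ i ∈ range n, (g i + g (i + 1)) = ∑ i ∈ range n, (g (i + 1) - g i) := by
    refine Finset.sum_congr rfl fun i _ => ?_
    rw [sub_eq_add_neg, zmod2_neg, add_comm]
  rw [h2, h, sub_eq_add_neg, zmod2_neg, add_comm]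

private lemma bd_sub {V E : Type} [Fintype E] (a b : E → V) (W : E → ℕ) (hW : ∀ e, 1 ≤ W e)
    (c : E → ZMod 2) (v' : V ⊕ (Σ e : E, Fin (W e))) :
    bd (fun p : Σ e : E, Fin (W e) => pt a b W p.1 p.2.1)
      (fun p : Σ e : E, Fin (W e) => pt a b W p.1 (p.2.1 + 1)) (fun p => c p.1) v' =
    bd (fun e => (Sum.inl (a e) : V ⊕ (Σ e : E, Fin (W e)))) (fun e => Sum.inl (b e)) c v' := by
  classical
  unfold bd
  rw [Fintype.sum_sigma]
  refine Finset.sum_congr rfl fun e _ => ?_
  simp only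
  rw [← Finset.mul_sum]
  congr 1
  rw [tele (W e) (fun i => dl (pt a b W e i) v')]
  rw [pt_zero, pt_last a b W hW]

private lemma bd_inl {V E X : Type} [Fintype E] (a b : E → V) (c : E → ZMod 2) (v : V) :
    bd (fun e => (Sum.inl (a e) : V ⊕ X)) (fun e => Sum.inl (b e)) c (Sum.inl v) = bd a b c v := by
  classical
  unfold bd dl
  refine Finset.sum_congr rfl fun e _ => ?_
  simp

private lemma bd_inr {V E X : Type} [Fintype E] (a b : E → V) (c : E → ZMod 2) (v : X) :
    bd (fun e => (Sum.inl (a e) : V ⊕ X)) (fun e => Sum.inl (b e)) c (Sum.inr v) = 0 := by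
  classical
  unfold bd dl
  refine Finset.sum_eq_zero fun e _ => ?_
  simp

private lemma sub_up {V E : Type} [Fintype E] (a b : E → V) (W : E → ℕ) (hW : ∀ e, 1 ≤ W e)
    (c : E → ZMod 2) (hc : ∀ v, bd a b c v = 0) (v' : V ⊕ (Σ e : E, Fin (W e))) :
    bd (fun p : Σ e : E, Fin (W e) => pt a b W p.1 p.2.1)
      (fun p : Σ e : E, Fin (W e) => pt a b W p.1 (p.2.1 + 1)) (fun p => c p.1) v' = 0 := by
  rw [bd_sub a b W hW]
  rcases v' with v | v
  · rw [bd_inl]; exact hc v
  · exact bd_inr a b c v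

private lemma sub_const {V E : Type} [Fintype E] (a b : E → V) (W : E → ℕ)
    (x : (Σ e : E, Fin (W e)) → ZMod 2)
    (hx : ∀ v', bd (fun p : Σ e : E, Fin (W e) => pt a b W p.1 p.2.1)
      (fun p : Σ e : E, Fin (W e) => pt a b W p.1 (p.2.1 + 1)) x v' = 0)
    (e : E) (i : ℕ) (hi : i + 1 < W e) :
    x ⟨e, ⟨i + 1, hi⟩⟩ = x ⟨e, ⟨i, by omega⟩⟩ := by
  classical
  have h := hx (Sum.inr ⟨e, ⟨i + 1, hi⟩⟩)
  unfold bd at h
  simp only [mul_add, Finset.sum_add_distrib] at h
  have h1 : ∑ p : Σ e : E, Fin (W e), x p *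
      dl (pt a b W p.1 p.2.1) (Sum.inr ⟨e, ⟨i + 1, hi⟩⟩) = x ⟨e, ⟨i + 1, hi⟩⟩ := by
    rw [Finset.sum_eq_single ⟨e, ⟨i + 1, hi⟩⟩]
    · have h9 := pt_mid a b W e ⟨i + 1, hi⟩ (by simp)
      simp only at h9
      rw [h9, dl_self, mul_one]
    · rintro ⟨e', j⟩ _ hne
      rw [dl_ne, mul_zero]
      intro hh
      obtain ⟨h3, h4⟩ := pt_inr a b W _ _ _ _ hh
      simp only at h3 h4
      subst h3
      apply hne
      congr 1
      exact Fin.ext h4
    · intro hh; exact absurd (Finset.mem_univ _) hh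
  have h2 : ∑ p : Σ e : E, Fin (W e), x p *
      dl (pt a b W p.1 (p.2.1 + 1)) (Sum.inr ⟨e, ⟨i + 1, hi⟩⟩) =
      x ⟨e, ⟨i, by omega⟩⟩ := by
    rw [Finset.sum_eq_single ⟨e, ⟨i, by omega⟩⟩]
    · have h9 := pt_mid a b W e ⟨i + 1, hi⟩ (by simp)
      simp only at h9
      rw [h9, dl_self, mul_one]
    · rintro ⟨e', j⟩ _ hne
      rw [dl_ne, mul_zero]
      intro hh
      obtain ⟨h3, h4⟩ := pt_inr a b W _ _ _ _ hh
      simp only at h3 h4
      subst h3
      apply hne
      congr 1
      exact Fin.ext (by simpa using h4)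
    · intro hh; exact absurd (Finset.mem_univ _) hh
  rw [h1, h2] at h
  have := eq_neg_of_add_eq_zero_left h
  rwa [zmod2_neg] at this

private lemma sub_down {V E : Type} [Fintype E] (a b : E → V) (W : E → ℕ) (hW : ∀ e, 1 ≤ W e)
    (x : (Σ e : E, Fin (W e)) → ZMod 2)
    (hx : ∀ v', bd (fun p : Σ e : E, Fin (W e) => pt a b W p.1 p.2.1)
      (fun p : Σ e : E, Fin (W e) => pt a b W p.1 (p.2.1 + 1)) x v' = 0) :
    ∃ c : E → ZMod 2, (∀ p, x p = c p.1) ∧ ∀ v, bd a b c v = 0 := by
  refine ⟨fun e => x ⟨e, ⟨0, hW e⟩⟩, ?_, ?_⟩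
  · have key : ∀ (e : E) (i : ℕ) (hi : i < W e), x ⟨e, ⟨i, hi⟩⟩ = x ⟨e, ⟨0, hW e⟩⟩ := by
      intro e i
      induction i with
      | zero => intro hi; rfl
      | succ n ih =>
        intro hi
        rw [sub_const a b W x hx e n hi]
        exact ih (by omega)
    rintro ⟨e, i⟩
    exact key e i.1 i.2
  · intro v
    have key : ∀ (e : E) (i : ℕ) (hi : i < W e), x ⟨e, ⟨i, hi⟩⟩ = x ⟨e, ⟨0, hW e⟩⟩ := by
      intro e i
      induction i with
      | zero => intro hi; rfl
      | succ n ih =>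
        intro hi
        rw [sub_const a b W x hx e n hi]
        exact ih (by omega)
    have hx' : x = fun p => (fun e => x ⟨e, ⟨0, hW e⟩⟩) p.1 := by
      funext ⟨e, i⟩
      exact key e i.1 i.2
    have h := hx (Sum.inl v)
    rw [hx', bd_sub a b W hW (fun e => x ⟨e, ⟨0, hW e⟩⟩), bd_inl] at h
    exact h


/-! ### Replacing vertices by circuits -/

private lemma rot_solve (n : ℕ) (g : Fin n → ZMod 2) (hg : ∑ i, g i = 0) :
    ∃ R : Fin n → ZMod 2, ∀ i, g (finRotate n i) + (R (finRotate n i) + R i) = 0 := by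
  rcases n with _ | n
  · exact ⟨fun _ => 0, fun i => i.elim0⟩
  · set g' : ℕ → ZMod 2 := fun m => if h : m < n + 1 then g ⟨m, h⟩ else 0 with hg'
    have hgi : ∀ i : Fin (n + 1), g i = g' i.1 := by
      intro i; simp only [hg']; rw [dif_pos i.2]
    refine ⟨fun i => ∑ j ∈ range (i.1 + 1), g' j, ?_⟩
    intro i
    rw [finRotate_apply]
    by_cases hi : i = Fin.last n
    · subst hi
      have h0 : (Fin.last n : Fin (n + 1)) + 1 = 0 := Fin.last_add_one n
      rw [h0]
      change g 0 + (∑ j ∈ range ((0 : Fin (n + 1)).1 + 1), g' j +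
        ∑ j ∈ range ((Fin.last n).1 + 1), g' j) = 0
      have h1 : ∑ j ∈ range ((Fin.last n).1 + 1), g' j = 0 := by
        have h2 : ((Fin.last n).1 + 1) = n + 1 := rfl
        rw [h2, ← Fin.sum_univ_eq_sum_range g' (n + 1), ← hg]
        refine Finset.sum_congr rfl fun i _ => (hgi i).symm
      rw [h1, hgi]
      simp [zmod2_add_self]
    · have hlt : i.1 + 1 < n + 1 := by
        have := Fin.val_lt_last hi
        omega
      have h1 : (i + 1).1 = i.1 + 1 := by
        rw [Fin.val_add_one_of_lt]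
        exact Fin.lt_last_iff_ne_last.2 hi
      change g (i + 1) + (∑ j ∈ range ((i + 1).1 + 1), g' j + ∑ j ∈ range (i.1 + 1), g' j) = 0
      rw [hgi, h1, Finset.sum_range_succ]
      generalize g' (i.1 + 1) = u
      generalize ∑ j ∈ range (i.1 + 1), g' j = w
      revert u w; decide

private lemma rot_fix (n : ℕ) (i : Fin n) (h : finRotate n i = i) : Subsingleton (Fin n) := by
  rcases n with _ | n
  · exact i.elim0
  · rcases n with _ | n
    · exact (inferInstance : Subsingleton (Fin 1))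
    · exfalso
      rw [finRotate_apply] at h
      have : (1 : Fin (n + 1 + 1)) = 0 := by
        have := add_eq_left.1 h
        exact this
      exact absurd this (by simp)

section ring

variable {V E : Type} [Fintype V] [Fintype E] (a b : E → V)

/-- the vertex carrying a dart -/
private def vx (d : E × Bool) : V := if d.2 then b d.1 else a d.1

/-- the number of darts at `v` -/
private noncomputable def kk (v : V) : ℕ := Nat.card {d : E × Bool // vx a b d = v}

private noncomputable def pos : E × Bool ≃ (Σ v : V, Fin (kk a b v)) :=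
  (Equiv.sigmaFiberEquiv (vx a b)).symm.trans
    (Equiv.sigmaCongrRight fun _ => Finite.equivFin _)

private lemma pos_fst (d : E × Bool) : (pos a b d).1 = vx a b d := rfl

private lemma vx_symm (w : Σ v : V, Fin (kk a b v)) : vx a b ((pos a b).symm w) = w.1 := by
  rw [← pos_fst, Equiv.apply_symm_apply]

private noncomputable def rot : (Σ v : V, Fin (kk a b v)) ≃ (Σ v : V, Fin (kk a b v)) :=
  Equiv.sigmaCongrRight fun v => finRotate (kk a b v)

private lemma rot_apply (v : V) (i : Fin (kk a b v)) :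
    rot a b ⟨v, i⟩ = ⟨v, finRotate (kk a b v) i⟩ := rfl

private noncomputable def ra : E ⊕ (Σ v : V, Fin (kk a b v)) → (Σ v : V, Fin (kk a b v)) :=
  Sum.elim (fun e => pos a b (e, false)) (fun w => w)

private noncomputable def rb : E ⊕ (Σ v : V, Fin (kk a b v)) → (Σ v : V, Fin (kk a b v)) :=
  Sum.elim (fun e => pos a b (e, true)) (fun w => rot a b w)

private lemma bd_fiber (x : E → ZMod 2) (v : V) :
    bd a b x v = ∑ i : Fin (kk a b v), x ((pos a b).symm ⟨v, i⟩).1 := by
  classical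
  have h1 : bd a b x v = ∑ d : E × Bool, x d.1 * dl (vx a b d) v := by
    unfold bd
    rw [Fintype.sum_prod_type]
    refine Finset.sum_congr rfl fun e _ => ?_
    rw [Fintype.sum_bool]
    simp only [vx]
    simp
    ring
  rw [h1, ← Equiv.sum_comp (pos a b).symm, Fintype.sum_sigma]
  rw [Finset.sum_eq_single v]
  · refine Finset.sum_congr rfl fun i _ => ?_
    rw [vx_symm, dl_self, mul_one]
  · intro w _ hw
    refine Finset.sum_eq_zero fun i _ => ?_
    rw [vx_symm, dl_ne hw, mul_zero]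
  · intro h; exact absurd (Finset.mem_univ _) h

private lemma bd_ring (x : E ⊕ (Σ v : V, Fin (kk a b v)) → ZMod 2) (w : Σ v : V, Fin (kk a b v)) :
    bd (ra a b) (rb a b) x w = x (Sum.inl ((pos a b).symm w).1) +
      (x (Sum.inr w) + x (Sum.inr ((rot a b).symm w))) := by
  classical
  unfold bd
  rw [Fintype.sum_sum_type]
  congr 1
  · simp only [ra, rb, Sum.elim_inl]
    have h1 : ∑ e, x (Sum.inl e) * (dl (pos a b (e, false)) w + dl (pos a b (e, true)) w) =
        ∑ d : E × Bool, x (Sum.inl d.1) * dl (pos a b d) w := by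
      rw [Fintype.sum_prod_type]
      refine Finset.sum_congr rfl fun e _ => ?_
      rw [Fintype.sum_bool]
      ring
    rw [h1, ← Equiv.sum_comp (pos a b).symm, Finset.sum_eq_single w]
    · rw [Equiv.apply_symm_apply, dl_self, mul_one]
    · intro w' _ hw
      rw [Equiv.apply_symm_apply, dl_ne hw, mul_zero]
    · intro h; exact absurd (Finset.mem_univ _) h
  · simp only [ra, rb, Sum.elim_inr, mul_add, Finset.sum_add_distrib]
    congr 1
    · rw [Finset.sum_eq_single w]
      · rw [dl_self, mul_one]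
      · intro w' _ hw
        rw [dl_ne hw, mul_zero]
      · intro h; exact absurd (Finset.mem_univ _) h
    · rw [Finset.sum_eq_single ((rot a b).symm w)]
      · rw [Equiv.apply_symm_apply, dl_self, mul_one]
      · intro w' _ hw
        rw [dl_ne, mul_zero]
        intro h
        apply hw
        rw [← h, Equiv.symm_apply_apply]
      · intro h; exact absurd (Finset.mem_univ _) h

private lemma ring_up (x : E → ZMod 2) (hx : ∀ v, bd a b x v = 0) :
    ∃ y : E ⊕ (Σ v : V, Fin (kk a b v)) → ZMod 2, (∀ e, y (Sum.inl e) = x e) ∧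
      ∀ w, bd (ra a b) (rb a b) y w = 0 := by
  have h1 : ∀ v, ∃ R : Fin (kk a b v) → ZMod 2, ∀ i,
      x ((pos a b).symm ⟨v, finRotate _ i⟩).1 + (R (finRotate _ i) + R i) = 0 := by
    intro v
    exact rot_solve _ (fun i => x ((pos a b).symm ⟨v, i⟩).1) (by rw [← bd_fiber]; exact hx v)
  choose R hR using h1
  refine ⟨Sum.elim x (fun w => R w.1 w.2), fun e => rfl, ?_⟩
  intro w
  rw [bd_ring]
  obtain ⟨w', rfl⟩ := (rot a b).surjective w
  rw [Equiv.symm_apply_apply]
  obtain ⟨v, i⟩ := w'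
  simp only [Sum.elim_inl, Sum.elim_inr, rot_apply]
  exact hR v i

private lemma ring_cycle (v : V) :
    ∃ y : E ⊕ (Σ v : V, Fin (kk a b v)) → ZMod 2, (∀ i, y (Sum.inr ⟨v, i⟩) = 1) ∧
      ∀ w, bd (ra a b) (rb a b) y w = 0 := by
  classical
  refine ⟨Sum.elim (fun _ => 0) (fun w => dl w.1 v), fun i => by simp [dl_self], ?_⟩
  intro w
  rw [bd_ring]
  obtain ⟨w', rfl⟩ := (rot a b).surjective w
  rw [Equiv.symm_apply_apply]
  obtain ⟨u, i⟩ := w'
  simp only [Sum.elim_inl, Sum.elim_inr, rot_apply]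
  rw [zmod2_add_self, add_zero]

private lemma ring_down (y : E ⊕ (Σ v : V, Fin (kk a b v)) → ZMod 2)
    (hy : ∀ w, bd (ra a b) (rb a b) y w = 0) (v : V) :
    bd a b (fun e => y (Sum.inl e)) v = 0 := by
  rw [bd_fiber]
  have h1 : ∀ i : Fin (kk a b v), y (Sum.inl ((pos a b).symm ⟨v, i⟩).1) =
      y (Sum.inr ⟨v, i⟩) + y (Sum.inr ⟨v, (finRotate _).symm i⟩) := by
    intro i
    have h := hy ⟨v, i⟩
    rw [bd_ring] at h
    have h2 : (rot a b).symm ⟨v, i⟩ = ⟨v, (finRotate _).symm i⟩ := rfl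
    rw [h2] at h
    have h3 := eq_neg_of_add_eq_zero_left h
    rwa [zmod2_neg] at h3
  rw [Finset.sum_congr rfl (fun i _ => h1 i), Finset.sum_add_distrib,
    Equiv.sum_comp (finRotate (kk a b v)).symm (fun i => y (Sum.inr ⟨v, i⟩)), zmod2_add_self]

private lemma rot_ne (hb : ∀ e, ∃ x : E → ZMod 2, x e = 1 ∧ ∀ v, bd a b x v = 0)
    (w : Σ v : V, Fin (kk a b v)) : rot a b w ≠ w := by
  intro h
  obtain ⟨v, i⟩ := w
  rw [rot_apply] at h
  have h1 : finRotate (kk a b v) i = i := by
    have := (Sigma.mk.inj h).2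
    exact eq_of_heq this
  have := rot_fix _ i h1
  obtain ⟨x, hx1, hx2⟩ := hb ((pos a b).symm ⟨v, i⟩).1
  have h2 := hx2 v
  rw [bd_fiber, Finset.sum_eq_single i (fun j _ hj => absurd (Subsingleton.elim j i) hj)
    (fun h => absurd (Finset.mem_univ _) h), hx1] at h2
  exact one_ne_zero h2

end ring


private lemma lp {T E : Type} [Fintype T] [Fintype E] (c : T → E → ℝ) (hc : ∀ F e, c F e ≤ 3)
    (h : ∀ W : E → ℕ, (∀ e, 1 ≤ W e) → ∃ F, 2 * ∑ e, (W e : ℝ) ≤ ∑ e, (W e : ℝ) * c F e) :
    ∃ p : T → ℝ, (∀ F, 0 ≤ p F) ∧ ∑ F, p F = 1 ∧ ∀ e, 2 ≤ ∑ F, p F * c F e := by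
  classical
  by_contra hcon
  push Not at hcon
  set L : (T → ℝ) →ₗ[ℝ] (E → ℝ) :=
    { toFun := fun p e => ∑ F, p F * c F e
      map_add' := by
        intro p q; funext e
        simp only [Pi.add_apply, add_mul, Finset.sum_add_distrib]
      map_smul' := by
        intro r p; funext e
        simp only [Pi.smul_apply, smul_eq_mul, mul_assoc, RingHom.id_apply, Finset.mul_sum] } with hL
  have hLc : Continuous L := LinearMap.continuous_of_finiteDimensional L
  have hK : IsCompact (L '' stdSimplex ℝ T) := (isCompact_stdSimplex ℝ T).image hLc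
  have hKc : Convex ℝ (L '' stdSimplex ℝ T) := (convex_stdSimplex ℝ T).linear_image L
  set S : Set (E → ℝ) := {x | ∀ e, 2 ≤ x e} with hS
  have hSc : Convex ℝ S := by
    intro x hx y hy s t hs ht hst e
    have h1 := hx e
    have h2 := hy e
    simp only [Pi.add_apply, Pi.smul_apply, smul_eq_mul]
    nlinarith
  have hScl : IsClosed S := by
    have : S = ⋂ e, {x : E → ℝ | 2 ≤ x e} := by ext x; simp [hS]
    rw [this]
    exact isClosed_iInter fun e => isClosed_le continuous_const (continuous_apply e)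
  have hdis : Disjoint (L '' stdSimplex ℝ T) S := by
    rw [Set.disjoint_left]
    rintro x ⟨p, hp, rfl⟩ hx
    obtain ⟨e, he⟩ := hcon p hp.1 hp.2
    have := hx e
    simp only [hL, LinearMap.coe_mk, AddHom.coe_mk] at this
    linarith
  obtain ⟨f, u, v, hf1, huv, hf2⟩ := geometric_hahn_banach_compact_closed hKc hK hSc hScl hdis
  set w : E → ℝ := fun e => f (Pi.single e 1) with hw
  have hfx : ∀ x : E → ℝ, f x = ∑ e, x e * w e := by
    intro x
    have hx : x = ∑ e, x e • (Pi.single e (1 : ℝ) : E → ℝ) := by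
      funext e
      simp [Finset.sum_apply, Pi.single_apply]
    conv_lhs => rw [hx]
    rw [map_sum]
    refine Finset.sum_congr rfl fun e _ => ?_
    rw [map_smul, smul_eq_mul]
  have hw0 : ∀ e, 0 ≤ w e := by
    intro e
    by_contra hneg
    push Not at hneg
    have h2 := hf2 (fun _ => 2) (by intro e; simp)
    set A := f (fun _ => (2 : ℝ)) with hA
    -- choose t with A + t w e < v
    have ht : ∃ t : ℝ, 0 ≤ t ∧ A + t * w e ≤ v := by
      refine ⟨(A - v) / (- w e), div_nonneg (by linarith) (by linarith), ?_⟩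
      have : (A - v) / (- w e) * w e = -(A - v) := by
        field_simp
        ring_nf
        have hne : w e ≠ 0 := ne_of_lt hneg
        field_simp
      rw [this]; linarith
    obtain ⟨t, ht0, ht1⟩ := ht
    have h3 := hf2 ((fun _ => (2 : ℝ)) + t • (Pi.single e (1 : ℝ) : E → ℝ)) (by
      intro e'
      simp only [Pi.add_apply, Pi.smul_apply, smul_eq_mul]
      have : 0 ≤ (Pi.single e (1 : ℝ) : E → ℝ) e' := by
        by_cases hh : e' = e
        · subst hh; simp
        · simp [hh]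
      nlinarith)
    rw [map_add, map_smul, smul_eq_mul] at h3
    linarith
  -- large k
  set δ := v - u with hδ
  have hδ0 : 0 < δ := by linarith
  obtain ⟨k, hk⟩ := exists_nat_gt ((Fintype.card E : ℝ) / δ)
  have hk2 : (Fintype.card E : ℝ) < k * δ := by
    rwa [div_lt_iff₀ hδ0] at hk
  obtain ⟨F, hF⟩ := h (fun e => ⌊(k : ℝ) * w e⌋₊ + 1) (by intro e; simp)
  have hFK : f (c F) < u := by
    apply hf1
    refine ⟨Pi.single F 1, single_mem_stdSimplex ℝ F, ?_⟩
    funext e
    simp only [hL, LinearMap.coe_mk, AddHom.coe_mk]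
    simp [Pi.single_apply]
  have h2v := hf2 (fun _ => 2) (by intro e; simp)
  rw [hfx] at hFK h2v
  have hmain : ∑ e, ((⌊(k : ℝ) * w e⌋₊ + 1 : ℕ) : ℝ) * (c F e - 2) ≤
      (k : ℝ) * ∑ e, w e * (c F e - 2) + Fintype.card E := by
    have : (Fintype.card E : ℝ) = ∑ e : E, (1 : ℝ) := by simp
    rw [this, Finset.mul_sum, ← Finset.sum_add_distrib]
    refine Finset.sum_le_sum fun e _ => ?_
    have h1 : (⌊(k : ℝ) * w e⌋₊ : ℝ) ≤ k * w e := Nat.floor_le (mul_nonneg (Nat.cast_nonneg k) (hw0 e))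
    have h2 : (k : ℝ) * w e < ⌊(k : ℝ) * w e⌋₊ + 1 := Nat.lt_floor_add_one _
    push_cast
    set z : ℝ := (⌊(k : ℝ) * w e⌋₊ : ℝ) + 1 - k * w e with hz
    have hz1 : 0 < z := by simp only [hz]; linarith
    have hz2 : z ≤ 1 := by simp only [hz]; linarith
    have : (⌊(k : ℝ) * w e⌋₊ : ℝ) + 1 = k * w e + z := by simp only [hz]; ring
    rw [this]
    have h3 := hc F e
    have h4 : z * (c F e - 2) ≤ 1 := by
      by_cases hneg : c F e - 2 ≤ 0
      · have : z * (c F e - 2) ≤ 0 := mul_nonpos_of_nonneg_of_nonpos hz1.le hneg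
        linarith
      · push Not at hneg
        nlinarith
    nlinarith
  have hlow : 0 ≤ ∑ e, ((⌊(k : ℝ) * w e⌋₊ + 1 : ℕ) : ℝ) * (c F e - 2) := by
    have : ∑ e, ((⌊(k : ℝ) * w e⌋₊ + 1 : ℕ) : ℝ) * (c F e - 2) =
        ∑ e, ((⌊(k : ℝ) * w e⌋₊ + 1 : ℕ) : ℝ) * c F e -
        2 * ∑ e, ((⌊(k : ℝ) * w e⌋₊ + 1 : ℕ) : ℝ) := by
      rw [Finset.mul_sum, ← Finset.sum_sub_distrib]
      refine Finset.sum_congr rfl fun e _ => ?_
      ring
    rw [this]
    linarith
  have hmid : ∑ e, w e * (c F e - 2) < -δ := by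
    have : ∑ e, w e * (c F e - 2) = ∑ e, c F e * w e - ∑ e, 2 * w e := by
      rw [← Finset.sum_sub_distrib]
      refine Finset.sum_congr rfl fun e _ => ?_
      ring
    rw [this]
    linarith
  have hkpos : (0 : ℝ) ≤ k := Nat.cast_nonneg k
  have : (k : ℝ) * ∑ e, w e * (c F e - 2) ≤ k * (-δ) := mul_le_mul_of_nonneg_left hmid.le hkpos
  linarith


private lemma rat_point {T κ : Type} [Fintype T] (A : κ → T → ℤ) (β : κ → ℤ) :
    ∀ (n : ℕ) (p : T → ℝ), (Finset.univ.filter (fun F => p F ≠ 0)).card = n → (∀ F, 0 ≤ p F) →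
    ∑ F, p F = 1 → (∀ k, ∑ F, p F * (A k F : ℝ) = β k) →
    ∃ q : T → ℚ, (∀ F, 0 ≤ q F) ∧ ∑ F, q F = 1 ∧ (∀ k, ∑ F, q F * (A k F : ℚ) = β k) ∧
      ∀ F, p F = 0 → q F = 0 := by
  classical
  obtain ⟨φ, hφ⟩ := LinearMap.exists_leftInverse_of_injective (Algebra.linearMap ℚ ℝ)
    (LinearMap.ker_eq_bot.2 (algebraMap ℚ ℝ).injective)
  have hφ1 : φ 1 = 1 := by
    have := LinearMap.congr_fun hφ 1
    simpa using this
  have hφr : ∀ r : ℚ, φ (r : ℝ) = r := by
    intro r
    have := LinearMap.congr_fun hφ r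
    simpa using this
  intro n
  induction n using Nat.strong_induction_on with
  | _ n ih =>
  intro p hcard hp hsum hA
  set q0 : T → ℚ := fun F => φ (p F) with hq0
  have hq0sum : ∑ F, q0 F = 1 := by
    simp only [hq0]
    rw [← map_sum, hsum, hφ1]
  have hq0A : ∀ k, ∑ F, q0 F * (A k F : ℚ) = β k := by
    intro k
    have h1 : ∀ F, q0 F * (A k F : ℚ) = φ (p F * (A k F : ℝ)) := by
      intro F
      have : p F * (A k F : ℝ) = (A k F : ℚ) • p F := by
        rw [Rat.smul_def]; push_cast; ring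
      rw [this, map_smul, smul_eq_mul, mul_comm]
    rw [Finset.sum_congr rfl (fun F _ => h1 F), ← map_sum, hA k]
    have := hφr (β k : ℚ)
    push_cast at this
    exact this
  have hq00 : ∀ F, p F = 0 → q0 F = 0 := by
    intro F hF
    simp [hq0, hF]
  by_cases hall : ∀ F, (q0 F : ℝ) = p F
  · refine ⟨q0, ?_, hq0sum, hq0A, hq00⟩
    intro F
    have := hp F
    rw [← hall F] at this
    exact_mod_cast this
  · push Not at hall
    obtain ⟨F1, hF1⟩ := hall
    set d : T → ℝ := fun F => (q0 F : ℝ) - p F with hd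
    have hdsum : ∑ F, d F = 0 := by
      simp only [hd, Finset.sum_sub_distrib]
      have : ∑ F, (q0 F : ℝ) = 1 := by exact_mod_cast hq0sum
      rw [this, hsum, sub_self]
    have hdA : ∀ k, ∑ F, d F * (A k F : ℝ) = 0 := by
      intro k
      simp only [hd, sub_mul, Finset.sum_sub_distrib]
      have : ∑ F, (q0 F : ℝ) * (A k F : ℝ) = β k := by exact_mod_cast hq0A k
      rw [this, hA k, sub_self]
    have hneg : ∃ F, d F < 0 := by
      by_contra hcon
      push Not at hcon
      have h0 := (Finset.sum_eq_zero_iff_of_nonneg (fun F _ => hcon F)).1 hdsum F1 (Finset.mem_univ _)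
      exact hF1 (by simp only [hd] at h0; linarith)
    obtain ⟨Fn, hFn⟩ := hneg
    have hB : (Finset.univ.filter (fun F => d F < 0)).Nonempty := ⟨Fn, by simp [hFn]⟩
    obtain ⟨F0, hF0, hmin⟩ := Finset.exists_min_image _ (fun F => p F / (- d F)) hB
    have hF0' : d F0 < 0 := by simpa using hF0
    set t : ℝ := p F0 / (- d F0) with ht
    have ht0 : 0 ≤ t := div_nonneg (hp F0) (by linarith)
    have hpF0 : p F0 ≠ 0 := by
      intro h0
      have := hq00 F0 h0
      simp only [hd, this, h0] at hF0'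
      simp at hF0'
    have hp'0 : p F0 + t * d F0 = 0 := by
      have hne : - d F0 ≠ 0 := by linarith [hF0']
      have : t * (- d F0) = p F0 := by rw [ht]; exact div_mul_cancel₀ _ hne
      linarith
    have hdz : ∀ F, p F = 0 → d F = 0 := by
      intro F hF
      simp only [hd, hq00 F hF, hF]; simp
    have hp' : ∀ F, 0 ≤ p F + t * d F := by
      intro F
      by_cases hF : d F < 0
      · have h1 := hmin F (by simp [hF])
        have h2 : t * (- d F) ≤ p F := by
          rw [← le_div_iff₀ (by linarith)]; exact h1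
        linarith
      · push Not at hF
        have := mul_nonneg ht0 hF
        have := hp F
        linarith
    have hlt : (Finset.univ.filter (fun F => p F + t * d F ≠ 0)).card < n := by
      rw [← hcard]
      apply Finset.card_lt_card
      rw [Finset.ssubset_iff_of_subset]
      · exact ⟨F0, by simp [hpF0], by simp [hp'0]⟩
      · intro F hF
        simp only [Finset.mem_filter, Finset.mem_univ, true_and] at hF ⊢
        intro h0
        apply hF
        rw [h0, hdz F h0]; ring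
    obtain ⟨q, hq1, hq2, hq3, hq4⟩ := ih _ hlt (fun F => p F + t * d F) rfl hp' (by
      rw [Finset.sum_add_distrib, ← Finset.mul_sum, hsum, hdsum]; ring) (by
      intro k
      simp only [add_mul, mul_assoc, Finset.sum_add_distrib]
      rw [← Finset.mul_sum, hA k, hdA k]; ring)
    refine ⟨q, hq1, hq2, hq3, ?_⟩
    intro F hF
    apply hq4
    rw [hF, hdz F hF]; ring

private lemma int_point {T κ : Type} [Fintype T] (A : κ → T → ℤ) (β : κ → ℤ) (p : T → ℝ)
    (hp : ∀ F, 0 ≤ p F) (hsum : ∑ F, p F = 1) (hA : ∀ k, ∑ F, p F * (A k F : ℝ) = β k) :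
    ∃ (N : ℕ) (n : T → ℕ), 1 ≤ N ∧ ∑ F, n F = N ∧ (∀ k, ∑ F, (n F : ℤ) * A k F = N * β k) ∧
      ∀ F, p F = 0 → n F = 0 := by
  classical
  obtain ⟨q, hq1, hq2, hq3, hq4⟩ := rat_point A β _ p rfl hp hsum hA
  set N : ℕ := ∏ F, (q F).den with hN
  have hN0 : 0 < N := Finset.prod_pos fun F _ => (q F).den_pos
  have hex : ∀ F, ∃ m : ℕ, (m : ℚ) = q F * N := by
    intro F
    obtain ⟨r, hr⟩ : (q F).den ∣ N := Finset.dvd_prod_of_mem _ (Finset.mem_univ F)
    have hnum : 0 ≤ (q F).num := Rat.num_nonneg.2 (hq1 F)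
    refine ⟨(q F).num.toNat * r, ?_⟩
    rw [hr]
    push_cast
    have h1 : ((q F).num.toNat : ℚ) = ((q F).num : ℚ) := by
      have : ((q F).num.toNat : ℤ) = (q F).num := Int.toNat_of_nonneg hnum
      exact_mod_cast this
    rw [h1, ← mul_assoc, Rat.mul_den_eq_num]
  choose n hn using hex
  refine ⟨N, n, hN0, ?_, ?_, ?_⟩
  · have : ((∑ F, n F : ℕ) : ℚ) = (N : ℚ) := by
      push_cast
      rw [Finset.sum_congr rfl (fun F _ => hn F), ← Finset.sum_mul, hq2, one_mul]
    exact_mod_cast this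
  · intro k
    have : ((∑ F, (n F : ℤ) * A k F : ℤ) : ℚ) = ((N * β k : ℤ) : ℚ) := by
      push_cast
      have h1 : ∀ F, (n F : ℚ) * (A k F : ℚ) = N * (q F * (A k F : ℚ)) := by
        intro F
        rw [hn F]; ring
      rw [Finset.sum_congr rfl (fun F _ => h1 F), ← Finset.mul_sum, hq3 k]
    exact_mod_cast this
  · intro F hF
    have := hn F
    rw [hq4 F hF, zero_mul] at this
    exact_mod_cast this



private lemma exists_ab {V E : Type} (ends : E → Sym2 V) :
    ∃ a b : E → V, ∀ e, ends e = s(a e, b e) := by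
  have : ∀ e, ∃ p : V × V, ends e = s(p.1, p.2) := by
    intro e
    induction h : ends e using Sym2.ind with
    | _ x y => exact ⟨(x, y), rfl⟩
  choose p hp using this
  exact ⟨fun e => (p e).1, fun e => (p e).2, hp⟩

private lemma ncard_count {N : ℕ} {E : Type} (C : Fin N → Fin 3 → Set E) (e : E) :
    (Set.ncard {q : Fin N × Fin 3 | e ∈ C q.1 q.2} : ℕ) =
      ∑ j, ∑ i, (C j i).indicator (fun _ => 1) e := by
  classical
  rw [Set.ncard_eq_toFinset_card', Finset.card_eq_sum_ones, Set.toFinset_ofPred, Finset.sum_filter,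
    Fintype.sum_prod_type]
  refine Finset.sum_congr rfl fun j _ => Finset.sum_congr rfl fun i _ => ?_
  simp [Set.indicator]

private lemma uniform_to_weighted (h : UniformCoverStatement) : WeightedStatement := by
  classical
  intro V E _ _ ends hb w
  obtain ⟨N, C, hN, hC, hU, hcnt⟩ := h V E ends hb
  have htot : ∑ j, ∑ i, ∑ e, (C j i).indicator w e = N * (2 * ∑ e, w e) := by
    have h1 : ∀ e, ∑ j, ∑ i, (C j i).indicator w e = 2 * N * w e := by
      intro e
      have h2 := hcnt e
      rw [ncard_count] at h2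
      have h3 : ∀ j i, (C j i).indicator w e = (((C j i).indicator (fun _ => 1) e : ℕ) : ℝ) * w e := by
        intro j i
        by_cases hh : e ∈ C j i <;> simp [hh]
      simp only [h3]
      rw [← Finset.sum_congr rfl (fun j _ => Finset.sum_mul _ _ _), ← Finset.sum_mul]
      have : (∑ j, ∑ i, (((C j i).indicator (fun _ => 1) e : ℕ) : ℝ)) = 2 * N := by
        exact_mod_cast h2
      rw [this]
    calc ∑ j, ∑ i, ∑ e, (C j i).indicator w e = ∑ j, ∑ e, ∑ i, (C j i).indicator w e := by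
          refine Finset.sum_congr rfl fun j _ => Finset.sum_comm
      _ = ∑ e, ∑ j, ∑ i, (C j i).indicator w e := Finset.sum_comm
      _ = ∑ e, 2 * N * w e := Finset.sum_congr rfl fun e _ => h1 e
      _ = N * (2 * ∑ e, w e) := by rw [← Finset.mul_sum]; ring
  by_contra hcon
  push Not at hcon
  have hlt : ∑ j : Fin N, ∑ i, ∑ e, (C j i).indicator w e < ∑ j : Fin N, 2 * ∑ e, w e := by
    have : Nonempty (Fin N) := ⟨⟨0, hN⟩⟩
    exact Finset.sum_lt_sum_of_nonempty Finset.univ_nonempty
      (fun j _ => hcon (C j) (hC j) (hU j))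
  rw [htot] at hlt
  simp at hlt

private lemma weighted_to_length (h : WeightedStatement) : LengthStatement := by
  classical
  intro V E _ _ ends hb
  obtain ⟨C, hC, hU, hw⟩ := h V E ends hb (fun _ => 1)
  refine ⟨C 0, C 1, C 2, hC 0, hC 1, hC 2, ?_, ?_⟩
  · rw [← hU]
    ext e
    simp only [Set.mem_union, Set.mem_iUnion]
    constructor
    · rintro ((h | h) | h)
      · exact ⟨0, h⟩
      · exact ⟨1, h⟩
      · exact ⟨2, h⟩
    · rintro ⟨i, hi⟩
      fin_cases i
      · exact Or.inl (Or.inl hi)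
      · exact Or.inl (Or.inr hi)
      · exact Or.inr hi
  · have h1 : ∀ i, ∑ e, (C i).indicator (fun _ => (1 : ℝ)) e = ((C i).ncard : ℝ) := by
      intro i
      rw [Set.ncard_eq_toFinset_card', Finset.card_eq_sum_ones]
      push_cast
      rw [← Finset.sum_subset (Finset.subset_univ (C i).toFinset)]
      · refine Finset.sum_congr rfl fun e he => ?_
        rw [Set.mem_toFinset] at he
        simp [he]
      · intro e _ he
        rw [Set.mem_toFinset] at he
        simp [he]
    rw [Fin.sum_univ_three, h1, h1, h1] at hw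
    have : (2 * (Fintype.card E : ℝ)) ≤ (C 0).ncard + (C 1).ncard + (C 2).ncard := by
      simpa using hw
    exact_mod_cast this


private lemma mem_ends_ring {V E : Type} [Fintype V] [Fintype E] (a b : E → V)
    (w : Σ v : V, Fin (kk a b v)) (f : E ⊕ (Σ v : V, Fin (kk a b v))) :
    w ∈ s(ra a b f, rb a b f) ↔ f = Sum.inl ((pos a b).symm w).1 ∨ f = Sum.inr w ∨
      f = Sum.inr ((rot a b).symm w) := by
  rcases f with e | u
  · simp only [ra, rb, Sum.elim_inl, Sym2.mem_iff, reduceCtorEq, or_false, Sum.inl.injEq]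
    constructor
    · rintro (h | h) <;> rw [h, Equiv.symm_apply_apply]
    · intro h
      obtain ⟨d, rfl⟩ := (pos a b).surjective w
      rw [Equiv.symm_apply_apply] at h
      obtain ⟨e', c⟩ := d
      simp only at h
      subst h
      cases c
      · exact Or.inl rfl
      · exact Or.inr rfl
  · simp only [ra, rb, Sum.elim_inr, Sym2.mem_iff, reduceCtorEq, false_or, Sum.inr.injEq]
    constructor
    · rintro (h | h)
      · exact Or.inl h.symm
      · right; rw [h, Equiv.symm_apply_apply]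
    · rintro (h | h)
      · exact Or.inl h.symm
      · right; rw [h, Equiv.apply_symm_apply]

private lemma pm_compl_even {V E : Type} [Fintype E] (ends : E → Sym2 V)
    (hc : Cubic ends) (M : Set E) (hM : IsPerfectMatching ends M) : IsEvenSub ends Mᶜ := by
  classical
  intro v
  obtain ⟨e0, ⟨he0, hv0⟩, huniq⟩ := hM v
  have h1 : {f : E | f ∈ Mᶜ ∧ v ∈ ends f ∧ ¬ (ends f).IsDiag} = {f | v ∈ ends f} \ {e0} := by
    ext f
    simp only [Set.mem_compl_iff, Set.mem_ofPred_eq, Set.mem_sdiff, Set.mem_singleton_iff]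
    constructor
    · rintro ⟨h2, h3, _⟩
      exact ⟨h3, fun h => h2 (h ▸ he0)⟩
    · rintro ⟨h2, h3⟩
      exact ⟨fun h => h3 (huniq f ⟨h, h2⟩), h2, hc.1 f⟩
  rw [h1, Set.ncard_sdiff_singleton_of_mem (show e0 ∈ {f | v ∈ ends f} from hv0), hc.2 v]
  exact ⟨1, rfl⟩

private def HasCovers {V E : Type} (ends : E → Sym2 V) : Prop :=
  ∃ (N : ℕ) (C : Fin N → Fin 3 → Set E), 1 ≤ N ∧ (∀ j i, IsEvenSub ends (C j i)) ∧
    (∀ j, ⋃ i, C j i = Set.univ) ∧ ∀ e, Set.ncard {q : Fin N × Fin 3 | e ∈ C q.1 q.2} = 2 * N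

private def HasTriples {V E : Type} (ends : E → Sym2 V) : Prop :=
  ∃ (N : ℕ) (M : Fin N → Fin 3 → Set E), 1 ≤ N ∧ (∀ j i, IsPerfectMatching ends (M j i)) ∧
    (∀ j, ⋂ i, M j i = ∅) ∧ ∀ e, Set.ncard {q : Fin N × Fin 3 | e ∈ M q.1 q.2} = N

private lemma covers_of_triples {V E : Type} [Fintype E] (ends : E → Sym2 V) (hc : Cubic ends)
    (h : HasTriples ends) : HasCovers ends := by
  classical
  obtain ⟨N, M, hN, hM, hI, hcnt⟩ := h
  refine ⟨N, fun j i => (M j i)ᶜ, hN, fun j i => pm_compl_even ends hc _ (hM j i), ?_, ?_⟩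
  · intro j
    rw [← Set.compl_iInter, hI j, Set.compl_empty]
  · intro e
    have h1 := hcnt e
    have h2 : {q : Fin N × Fin 3 | e ∈ (M q.1 q.2)ᶜ} =
        {q : Fin N × Fin 3 | e ∈ M q.1 q.2}ᶜ := by
      ext q; simp
    rw [h2, Set.ncard_compl, h1]
    have h3 : Nat.card (Fin N × Fin 3) = N * 3 := by simp
    rw [h3]; omega

section ringgraph

variable {V E : Type} [Fintype V] [Fintype E] (ends : E → Sym2 V) (a b : E → V)
  (hab : ∀ e, ends e = s(a e, b e)) (hb : Bridgeless ends)

/-- the graph in which every vertex is replaced by a circuit on its darts -/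
private noncomputable def ringEnds :
    E ⊕ (Σ v : V, Fin (kk a b v)) → Sym2 (Σ v : V, Fin (kk a b v)) :=
  fun f => s(ra a b f, rb a b f)

include hab hb in
private lemma hb2 : ∀ e, ∃ x : E → ZMod 2, x e = 1 ∧ ∀ v, bd a b x v = 0 := by
  classical
  intro e
  obtain ⟨S, hS, hS2⟩ := hb e
  exact ⟨ind S, by simp [ind, hS], (even_iff ends a b hab S).1 hS2⟩

include hab hb in
private lemma ring_bridgeless : Bridgeless (ringEnds a b) := by
  intro f
  rcases f with e | ⟨v, i⟩
  · obtain ⟨x, hx1, hx2⟩ := hb2 ends a b hab hb e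
    obtain ⟨y, hy1, hy2⟩ := ring_up a b x hx2
    refine ⟨{f | y f = 1}, ?_, ?_⟩
    · simp only [Set.mem_ofPred_eq, hy1, hx1]
    · rw [even_iff (ringEnds a b) (ra a b) (rb a b) (fun _ => rfl), ind_set]
      exact hy2
  · obtain ⟨y, hy1, hy2⟩ := ring_cycle a b v
    refine ⟨{f | y f = 1}, hy1 i, ?_⟩
    rw [even_iff (ringEnds a b) (ra a b) (rb a b) (fun _ => rfl), ind_set]
    exact hy2

include hab hb in
private lemma ring_cubic : Cubic (ringEnds a b) := by
  have hrot := rot_ne a b (hb2 ends a b hab hb)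
  have hrot' : ∀ w, (rot a b).symm w ≠ w := by
    intro w hw
    apply hrot w
    conv_lhs => rw [← hw, Equiv.apply_symm_apply]
  refine ⟨?_, ?_⟩
  · intro f
    rcases f with e | w
    · simp only [ringEnds, ra, rb, Sum.elim_inl, Sym2.mk_isDiag_iff]
      intro h
      have := (pos a b).injective h
      simp at this
    · simp only [ringEnds, ra, rb, Sum.elim_inr, Sym2.mk_isDiag_iff]
      exact fun h => hrot w h.symm
  · intro w
    have : {f | w ∈ ringEnds a b f} = {Sum.inl ((pos a b).symm w).1, Sum.inr w,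
        Sum.inr ((rot a b).symm w)} := by
      ext f
      simp only [Set.mem_ofPred_eq, ringEnds, mem_ends_ring, Set.mem_insert_iff,
        Set.mem_singleton_iff]
    rw [this, Set.ncard_eq_three]
    exact ⟨_, _, _, by simp, by simp, by simpa using (hrot' w).symm, rfl⟩

include hab in
private lemma covers_down (h : HasCovers (ringEnds a b)) : HasCovers ends := by
  classical
  obtain ⟨N, C, hN, hC, hU, hcnt⟩ := h
  refine ⟨N, fun j i => {e | Sum.inl e ∈ C j i}, hN, ?_, ?_, ?_⟩
  · intro j i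
    rw [even_iff ends a b hab]
    have h1 := hC j i
    rw [even_iff (ringEnds a b) (ra a b) (rb a b) (fun _ => rfl)] at h1
    intro v
    have h2 := ring_down a b _ h1 v
    have h3 : ind {e | Sum.inl e ∈ C j i} = fun e => ind (C j i) (Sum.inl e) := by
      funext e
      simp [ind]
    rw [h3]
    exact h2
  · intro j
    rw [Set.eq_univ_iff_forall]
    intro e
    have h1 : (Sum.inl e : E ⊕ (Σ v : V, Fin (kk a b v))) ∈ ⋃ i, C j i := by rw [hU j]; trivial
    obtain ⟨i, hi⟩ := Set.mem_iUnion.1 h1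
    exact Set.mem_iUnion.2 ⟨i, hi⟩
  · intro e
    exact hcnt (Sum.inl e)

include hab in
private lemma kk_three (hc : Cubic ends) (v : V) : kk a b v = 3 := by
  classical
  rw [← hc.2 v, ← Nat.card_coe_set_eq]
  unfold kk
  have hmem : ∀ d : {d : E × Bool // vx a b d = v}, d.1.1 ∈ {e | v ∈ ends e} := by
    rintro ⟨⟨e, c⟩, hd⟩
    simp only [Set.mem_ofPred_eq, hab e, Sym2.mem_iff]
    cases c
    · left; simpa [vx] using hd.symm
    · right; simpa [vx] using hd.symm
  refine Nat.card_congr (Equiv.ofBijective (fun d => ⟨d.1.1, hmem d⟩) ⟨?_, ?_⟩)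
  · rintro ⟨⟨e, c⟩, hd⟩ ⟨⟨e', c'⟩, hd'⟩ h
    have h1 : e = e' := congrArg Subtype.val h
    subst h1
    have h2 := hc.1 e
    rw [hab e, Sym2.mk_isDiag_iff] at h2
    cases c <;> cases c'
    · rfl
    · exact absurd ((show a e = v from hd).trans (show b e = v from hd').symm) h2
    · exact absurd ((show a e = v from hd').trans (show b e = v from hd).symm) h2
    · rfl
  · rintro ⟨e, he⟩
    simp only [Set.mem_ofPred_eq, hab e, Sym2.mem_iff] at he
    rcases he with h | h
    · exact ⟨⟨(e, false), by simp [vx, h]⟩, rfl⟩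
    · exact ⟨⟨(e, true), by simp [vx, h]⟩, rfl⟩

private lemma rot_two (n : ℕ) (hn : n = 3) (i : Fin n) : finRotate n (finRotate n i) ≠ i := by
  subst hn
  revert i
  decide

include hab in
private lemma ring_injective (hc : Cubic ends) : Function.Injective (ringEnds a b) := by
  have hne : ∀ e, (pos a b (e, false)).1 ≠ (pos a b (e, true)).1 := by
    intro e
    rw [pos_fst, pos_fst]
    have h2 := hc.1 e
    rw [hab e, Sym2.mk_isDiag_iff] at h2
    simpa [vx] using h2
  have hr : ∀ w : Σ v : V, Fin (kk a b v), rot a b (rot a b w) ≠ w := by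
    rintro ⟨v, i⟩ h
    rw [rot_apply, rot_apply] at h
    have h1 := eq_of_heq (Sigma.mk.inj h).2
    exact rot_two _ (kk_three ends a b hab hc v) i h1
  have hr1 : ∀ w : Σ v : V, Fin (kk a b v), (rot a b w).1 = w.1 := fun w => rfl
  intro f g h
  simp only [ringEnds] at h
  rcases f with e | w <;> rcases g with e' | w'
  · simp only [ra, rb, Sum.elim_inl, Sym2.eq_iff] at h
    rcases h with ⟨h1, _⟩ | ⟨h1, _⟩
    · have := (pos a b).injective h1
      simp only [Prod.mk.injEq, and_true] at this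
      rw [this]
    · have := (pos a b).injective h1
      simp at this
  · exfalso
    simp only [ra, rb, Sum.elim_inl, Sum.elim_inr, Sym2.eq_iff] at h
    rcases h with ⟨h1, h2⟩ | ⟨h1, h2⟩
    · exact hne e (by rw [h1, h2, hr1])
    · exact hne e (by rw [h1, h2, hr1])
  · exfalso
    simp only [ra, rb, Sum.elim_inl, Sum.elim_inr, Sym2.eq_iff] at h
    rcases h with ⟨h1, h2⟩ | ⟨h1, h2⟩
    · exact hne e' (by rw [← h1, ← h2, hr1])
    · exact hne e' (by rw [← h1, ← h2, hr1])
  · simp only [ra, rb, Sum.elim_inr, Sym2.eq_iff] at h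
    rcases h with ⟨h1, _⟩ | ⟨h1, h2⟩
    · rw [h1]
    · exfalso
      apply hr w
      rw [h2, ← h1]

end ringgraph

private lemma simple_to_uniform (h : SimpleTriplesStatement) : UniformCoverStatement := by
  classical
  intro V E _ _ ends hb
  obtain ⟨a, b, hab⟩ := exists_ab ends
  have hb1 := ring_bridgeless ends a b hab hb
  have hc1 := ring_cubic ends a b hab hb
  have hb2' := ring_bridgeless (ringEnds a b) (ra a b) (rb a b) (fun _ => rfl) hb1
  have hc2 := ring_cubic (ringEnds a b) (ra a b) (rb a b) (fun _ => rfl) hb1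
  have hinj := ring_injective (ringEnds a b) (ra a b) (rb a b) (fun _ => rfl) hc1
  have h1 := h _ _ _ hb2' hc2 hinj
  exact covers_down ends a b hab (covers_down (ringEnds a b) (ra a b) (rb a b) (fun _ => rfl)
    (covers_of_triples _ hc2 h1))

private lemma sub_lift {V E : Type} [Fintype V] [Fintype E] (ends : E → Sym2 V) (a b : E → V)
    (hab : ∀ e, ends e = s(a e, b e)) (hb : Bridgeless ends) (h : LengthStatement) (W : E → ℕ)
    (hW : ∀ e, 1 ≤ W e) :
    ∃ C : Fin 3 → Set E, (∀ i, IsEvenSub ends (C i)) ∧ ⋃ i, C i = Set.univ ∧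
      2 * ∑ e, W e ≤ ∑ i, ∑ e, (C i).indicator W e := by
  classical
  set a' : (Σ e : E, Fin (W e)) → V ⊕ (Σ e : E, Fin (W e)) := fun p => pt a b W p.1 p.2.1 with ha'
  set b' : (Σ e : E, Fin (W e)) → V ⊕ (Σ e : E, Fin (W e)) :=
    fun p => pt a b W p.1 (p.2.1 + 1) with hb'
  set ends' : (Σ e : E, Fin (W e)) → Sym2 (V ⊕ (Σ e : E, Fin (W e))) :=
    fun p => s(a' p, b' p) with hends'
  have hbr : Bridgeless ends' := by
    intro p
    obtain ⟨S, hS, hS2⟩ := hb p.1
    refine ⟨{p | p.1 ∈ S}, hS, ?_⟩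
    rw [even_iff ends' a' b' (fun _ => rfl)]
    have h1 : ind {p : Σ e : E, Fin (W e) | p.1 ∈ S} = fun p => ind S p.1 := by
      funext p; simp [ind]
    rw [h1]
    exact sub_up a b W hW (ind S) ((even_iff ends a b hab S).1 hS2)
  have hdown : ∀ S : Set (Σ e : E, Fin (W e)), IsEvenSub ends' S →
      ∃ C : Set E, IsEvenSub ends C ∧ S = {p | p.1 ∈ C} := by
    intro S hS
    rw [even_iff ends' a' b' (fun _ => rfl)] at hS
    obtain ⟨c, hc1, hc2⟩ := sub_down a b W hW (ind S) hS
    refine ⟨{e | c e = 1}, ?_, ?_⟩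
    · rw [even_iff ends a b hab, ind_set]
      exact hc2
    · ext p
      have := hc1 p
      simp only [Set.mem_ofPred_eq, ← this, ind]
      simp
  have hcard : ∀ C : Set E, Set.ncard {p : Σ e : E, Fin (W e) | p.1 ∈ C} =
      ∑ e, C.indicator W e := by
    intro C
    rw [Set.ncard_eq_toFinset_card', Finset.card_eq_sum_ones, Set.toFinset_ofPred,
      Finset.sum_filter, Fintype.sum_sigma]
    refine Finset.sum_congr rfl fun e _ => ?_
    by_cases he : e ∈ C <;> simp [he]
  obtain ⟨S₁, S₂, S₃, h1, h2, h3, hU, hL⟩ := h _ _ ends' hbr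
  obtain ⟨C₁, hC1, rfl⟩ := hdown S₁ h1
  obtain ⟨C₂, hC2, rfl⟩ := hdown S₂ h2
  obtain ⟨C₃, hC3, rfl⟩ := hdown S₃ h3
  refine ⟨![C₁, C₂, C₃], ?_, ?_, ?_⟩
  · intro i; fin_cases i
    · exact hC1
    · exact hC2
    · exact hC3
  · rw [Set.eq_univ_iff_forall]
    intro e
    have h4 : (⟨e, ⟨0, hW e⟩⟩ : Σ e : E, Fin (W e)) ∈ ({p | p.1 ∈ C₁} ∪ {p | p.1 ∈ C₂} ∪
        {p | p.1 ∈ C₃} : Set (Σ e : E, Fin (W e))) := by rw [hU]; trivial
    rcases h4 with (h4 | h4) | h4
    · exact Set.mem_iUnion.2 ⟨0, h4⟩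
    · exact Set.mem_iUnion.2 ⟨1, h4⟩
    · exact Set.mem_iUnion.2 ⟨2, h4⟩
  · rw [hcard, hcard, hcard] at hL
    have h5 : Fintype.card (Σ e : E, Fin (W e)) = ∑ e, W e := by simp
    rw [h5] at hL
    rw [Fin.sum_univ_three]
    exact hL

/-- number of edges of `S` at `v` -/
private noncomputable def dg {V E : Type} (ends : E → Sym2 V) (S : Set E) (v : V) : ℕ :=
  Set.ncard {f | f ∈ S ∧ v ∈ ends f}

private lemma handshake {V E : Type} [Fintype V] [Fintype E] (ends : E → Sym2 V)
    (hl : ∀ e, ¬ (ends e).IsDiag) (S : Set E) : ∑ v, dg ends S v = 2 * S.ncard := by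
  classical
  unfold dg
  have h1 : ∀ v, Set.ncard {f | f ∈ S ∧ v ∈ ends f} =
      ∑ f, if f ∈ S ∧ v ∈ ends f then 1 else 0 := by
    intro v
    rw [Set.ncard_eq_toFinset_card', Finset.card_eq_sum_ones, Set.toFinset_ofPred,
      Finset.sum_filter]
  simp only [h1]
  rw [Finset.sum_comm, Set.ncard_eq_toFinset_card', Finset.card_eq_sum_ones, Finset.mul_sum,
    ← Finset.sum_subset (Finset.subset_univ S.toFinset)]
  · refine Finset.sum_congr rfl fun f hf => ?_
    rw [Set.mem_toFinset] at hf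
    have h2 := hl f
    induction h : ends f using Sym2.ind with
    | _ x y =>
      rw [h, Sym2.mk_isDiag_iff] at h2
      have h3 : ∀ v, (f ∈ S ∧ v ∈ s(x, y)) ↔ v ∈ ({x, y} : Finset V) := by
        intro v; simp [hf]
      rw [Finset.sum_congr rfl (fun v _ => if_congr (h3 v) rfl rfl), Finset.sum_ite_mem,
        Finset.univ_inter, Finset.sum_const, Finset.card_pair h2]
      simp
  · intro f _ hf
    rw [Set.mem_toFinset] at hf
    simp [hf]

private lemma dg_even {V E : Type} (ends : E → Sym2 V) (hc : Cubic ends) (S : Set E)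
    (hS : IsEvenSub ends S) (v : V) : Even (dg ends S v) := by
  have h := hS v
  have h1 : {f : E | f ∈ S ∧ v ∈ ends f ∧ ¬ (ends f).IsDiag} = {f | f ∈ S ∧ v ∈ ends f} := by
    ext f
    simp only [Set.mem_ofPred_eq]
    exact ⟨fun h => ⟨h.1, h.2.1⟩, fun h => ⟨h.1, h.2, hc.1 f⟩⟩
  rw [h1] at h
  exact h

private lemma dg_add {V E : Type} [Fintype E] (ends : E → Sym2 V) (hc : Cubic ends) (S : Set E)
    (v : V) : dg ends S v + dg ends Sᶜ v = 3 := by
  classical
  unfold dg
  rw [← hc.2 v, ← Set.ncard_union_eq]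
  · congr 1
    ext f
    simp only [Set.mem_union, Set.mem_ofPred_eq, Set.mem_compl_iff]
    tauto
  · rw [Set.disjoint_left]
    rintro f ⟨h1, _⟩ ⟨h2, _⟩
    exact h2 h1

private lemma dg_le {V E : Type} [Fintype E] (ends : E → Sym2 V) (hc : Cubic ends) (S : Set E)
    (hS : IsEvenSub ends S) (v : V) : dg ends S v ≤ 2 := by
  have h1 := dg_even ends hc S hS v
  have h2 := dg_add ends hc S v
  obtain ⟨k, hk⟩ := h1
  omega

private lemma ncard_le {V E : Type} [Fintype V] [Fintype E] (ends : E → Sym2 V) (hc : Cubic ends)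
    (S : Set E) (hS : IsEvenSub ends S) : S.ncard ≤ Fintype.card V := by
  have h1 := handshake ends hc.1 S
  have h2 : ∑ v, dg ends S v ≤ ∑ v : V, 2 := Finset.sum_le_sum fun v _ => dg_le ends hc S hS v
  simp at h2
  omega

private lemma pm_of_eq {V E : Type} [Fintype V] [Fintype E] (ends : E → Sym2 V) (hc : Cubic ends)
    (S : Set E) (hS : IsEvenSub ends S) (hcard : S.ncard = Fintype.card V) :
    IsPerfectMatching ends Sᶜ := by
  classical
  have h1 := handshake ends hc.1 S
  have h2 : ∀ v ∈ Finset.univ, dg ends S v = 2 := by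
    have h3 : ∑ v, dg ends S v = ∑ v : V, 2 := by
      rw [h1, hcard]; simp [mul_comm]
    exact (Finset.sum_eq_sum_iff_of_le (fun v _ => dg_le ends hc S hS v)).1 h3
  intro v
  have h3 := h2 v (Finset.mem_univ _)
  have h4 := dg_add ends hc S v
  have h5 : dg ends Sᶜ v = 1 := by omega
  unfold dg at h5
  rw [Set.ncard_eq_one] at h5
  obtain ⟨e0, he0⟩ := h5
  have h6 : e0 ∈ {f | f ∈ Sᶜ ∧ v ∈ ends f} := by rw [he0]; rfl
  refine ⟨e0, h6, ?_⟩
  intro e he
  have : e ∈ ({e0} : Set E) := by rw [← he0]; exact he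
  exact this

private lemma two_card {V E : Type} [Fintype V] [Fintype E] (ends : E → Sym2 V)
    (hc : Cubic ends) : 3 * Fintype.card V = 2 * Fintype.card E := by
  have h1 := handshake ends hc.1 Set.univ
  have h2 : ∀ v, dg ends Set.univ v = 3 := by
    intro v
    unfold dg
    rw [← hc.2 v]
    congr 1
    ext f; simp
  simp only [h2] at h1
  rw [Set.ncard_univ, Nat.card_eq_fintype_card] at h1
  simp at h1
  omega


private noncomputable def cnt {E : Type} (C : Fin 3 → Set E) (e : E) : ℕ :=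
  ∑ i, (C i).indicator (fun _ => 1) e

private lemma cnt_le {E : Type} (C : Fin 3 → Set E) (e : E) : cnt C e ≤ 3 := by
  classical
  unfold cnt
  have : ∑ i : Fin 3, (C i).indicator (fun _ => 1) e ≤ ∑ i : Fin 3, 1 := by
    refine Finset.sum_le_sum fun i _ => ?_
    by_cases h : e ∈ C i <;> simp [h]
  simpa using this

private lemma sum_ind {E : Type} [Fintype E] (C : Set E) :
    ∑ e, C.indicator (fun _ => 1) e = C.ncard := by
  classical
  rw [Set.ncard_eq_toFinset_card', Finset.card_eq_sum_ones,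
    ← Finset.sum_subset (Finset.subset_univ C.toFinset)]
  · refine Finset.sum_congr rfl fun e he => ?_
    rw [Set.mem_toFinset] at he
    simp [he]
  · intro e _ he
    rw [Set.mem_toFinset] at he
    simp [he]

private lemma sum_cnt {E : Type} [Fintype E] (C : Fin 3 → Set E) :
    ∑ e, cnt C e = ∑ i, (C i).ncard := by
  unfold cnt
  rw [Finset.sum_comm]
  exact Finset.sum_congr rfl fun i _ => sum_ind (C i)

private lemma length_to_triples (h : LengthStatement) : UniformTriplesStatement := by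
  classical
  intro V E _ _ ends hb hc
  obtain ⟨a, b, hab⟩ := exists_ab ends
  let T := {C : Fin 3 → Set E // (∀ i, IsEvenSub ends (C i)) ∧ ⋃ i, C i = Set.univ}
  have : Fintype T := Fintype.ofFinite T
  obtain ⟨p, hp0, hp1, hp2⟩ := lp (T := T) (E := E) (fun F e => (cnt F.1 e : ℝ))
    (fun F e => by exact_mod_cast cnt_le F.1 e) (by
      intro W hW
      obtain ⟨C, hC, hU, hL⟩ := sub_lift ends a b hab hb h W hW
      refine ⟨⟨C, hC, hU⟩, ?_⟩
      have h1 : ∑ i, ∑ e, (C i).indicator W e = ∑ e, W e * cnt C e := by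
        rw [Finset.sum_comm]
        refine Finset.sum_congr rfl fun e _ => ?_
        unfold cnt
        rw [Finset.mul_sum]
        refine Finset.sum_congr rfl fun i _ => ?_
        by_cases he : e ∈ C i <;> simp [he]
      rw [h1] at hL
      exact_mod_cast hL)
  have htot : ∀ F : T, ∑ i, (F.1 i).ncard ≤ 3 * Fintype.card V := by
    intro F
    have : ∑ i, (F.1 i).ncard ≤ ∑ i : Fin 3, Fintype.card V :=
      Finset.sum_le_sum fun i _ => ncard_le ends hc _ (F.2.1 i)
    simpa using this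
  have hVE := two_card ends hc
  have hsw : ∑ e, ∑ F, p F * (cnt F.1 e : ℝ) = ∑ F, p F * ((∑ i, (F.1 i).ncard : ℕ) : ℝ) := by
    rw [Finset.sum_comm]
    refine Finset.sum_congr rfl fun F _ => ?_
    rw [← Finset.mul_sum, ← sum_cnt]
    push_cast
    rfl
  have hup : ∑ F, p F * ((∑ i, (F.1 i).ncard : ℕ) : ℝ) ≤ 3 * Fintype.card V := by
    calc ∑ F, p F * ((∑ i, (F.1 i).ncard : ℕ) : ℝ) ≤ ∑ F, p F * (3 * Fintype.card V) := by
          refine Finset.sum_le_sum fun F _ => mul_le_mul_of_nonneg_left ?_ (hp0 F)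
          exact_mod_cast htot F
      _ = 3 * Fintype.card V := by rw [← Finset.sum_mul, hp1, one_mul]
  have hVE' : (3 : ℝ) * Fintype.card V = 2 * Fintype.card E := by exact_mod_cast hVE
  have hlow : (2 : ℝ) * Fintype.card E ≤ ∑ e, ∑ F, p F * (cnt F.1 e : ℝ) := by
    have : ∑ e : E, (2 : ℝ) ≤ ∑ e, ∑ F, p F * (cnt F.1 e : ℝ) :=
      Finset.sum_le_sum fun e _ => hp2 e
    simpa [mul_comm] using this
  have heq : ∀ e, ∑ F, p F * (cnt F.1 e : ℝ) = 2 := by
    have h1 : ∑ e, (∑ F, p F * (cnt F.1 e : ℝ) - 2) = 0 := by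
      rw [Finset.sum_sub_distrib, hsw]
      have : ∑ e : E, (2 : ℝ) = 2 * Fintype.card E := by simp [mul_comm]
      rw [this]
      rw [hsw] at hlow
      linarith
    intro e
    have h2 := (Finset.sum_eq_zero_iff_of_nonneg (fun e _ => sub_nonneg.2 (hp2 e))).1 h1 e
      (Finset.mem_univ _)
    linarith
  have hfull : ∀ F, p F ≠ 0 → ∀ i, (F.1 i).ncard = Fintype.card V := by
    have h1 : ∑ F, p F * (3 * Fintype.card V - ((∑ i, (F.1 i).ncard : ℕ) : ℝ)) = 0 := by
      simp only [mul_sub, Finset.sum_sub_distrib]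
      rw [← Finset.sum_mul, hp1, one_mul, ← hsw, Finset.sum_congr rfl (fun e _ => heq e)]
      simp
      linarith
    intro F hF
    have h2 := (Finset.sum_eq_zero_iff_of_nonneg (fun F _ => mul_nonneg (hp0 F) (by
      have := htot F
      have h3 : ((∑ i, (F.1 i).ncard : ℕ) : ℝ) ≤ 3 * Fintype.card V := by exact_mod_cast this
      linarith))).1 h1 F (Finset.mem_univ _)
    have h3 : (3 : ℝ) * Fintype.card V - ((∑ i, (F.1 i).ncard : ℕ) : ℝ) = 0 := by
      rcases mul_eq_zero.1 h2 with h | h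
      · exact absurd h hF
      · exact h
    have h4 : ∑ i, (F.1 i).ncard = 3 * Fintype.card V := by
      have : ((∑ i, (F.1 i).ncard : ℕ) : ℝ) = ((3 * Fintype.card V : ℕ) : ℝ) := by
        push_cast at h3 ⊢; linarith
      exact_mod_cast this
    rw [Fin.sum_univ_three] at h4
    have h5 := ncard_le ends hc _ (F.2.1 0)
    have h6 := ncard_le ends hc _ (F.2.1 1)
    have h7 := ncard_le ends hc _ (F.2.1 2)
    intro i
    fin_cases i
    · change (F.1 0).ncard = _; omega
    · change (F.1 1).ncard = _; omega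
    · change (F.1 2).ncard = _; omega
  obtain ⟨N, n, hN, hn1, hn2, hn3⟩ := int_point (T := T) (κ := E) (fun e F => (cnt F.1 e : ℤ))
    (fun _ => 2) p hp0 hp1 (fun e => by
      have := heq e
      push_cast
      exact this)
  have hcardN : Fintype.card (Fin N) = Fintype.card (Σ F : T, Fin (n F)) := by
    simp [hn1]
  let θ : Fin N ≃ Σ F : T, Fin (n F) := Fintype.equivOfCardEq hcardN
  refine ⟨N, fun j i => ((θ j).1.1 i)ᶜ, hN, ?_, ?_, ?_⟩
  · intro j i
    apply pm_of_eq ends hc _ ((θ j).1.2.1 i)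
    apply hfull
    intro h0
    have h1 := hn3 _ h0
    have h2 := (θ j).2.2
    omega
  · intro j
    rw [← Set.compl_iUnion, (θ j).1.2.2, Set.compl_univ]
  · intro e
    have h1 : {q : Fin N × Fin 3 | e ∈ ((θ q.1).1.1 q.2)ᶜ} =
        {q : Fin N × Fin 3 | e ∈ (θ q.1).1.1 q.2}ᶜ := by
      ext q; simp
    have h0 : Set.ncard {q : Fin N × Fin 3 | e ∈ (θ q.1).1.1 q.2} =
        ∑ j, ∑ i, ((θ j).1.1 i).indicator (fun _ => 1) e :=
      ncard_count (fun j i => (θ j).1.1 i) e
    rw [h1, Set.ncard_compl, h0]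
    have h2 : ∑ j, ∑ i, ((θ j).1.1 i).indicator (fun _ => 1) e = 2 * N := by
      change ∑ j, cnt (θ j).1.1 e = 2 * N
      rw [Equiv.sum_comp θ (fun s : Σ F : T, Fin (n F) => cnt s.1.1 e), Fintype.sum_sigma]
      simp only [Finset.sum_const, Finset.card_univ, Fintype.card_fin, smul_eq_mul]
      have := hn2 e
      have h3 : ((∑ F : T, n F * cnt F.1 e : ℕ) : ℤ) = ((2 * N : ℕ) : ℤ) := by
        push_cast; linarith
      exact_mod_cast h3
    rw [h2]
    have h3 : Nat.card (Fin N × Fin 3) = N * 3 := by simp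
    rw [h3]; omega

/-- Q1, its weighted form, the uniform cover form, and the uniform triple forms for cubic and for
simple cubic graphs are all equivalent. -/
theorem equivalence :
    List.TFAE [LengthStatement, WeightedStatement, UniformCoverStatement,
      UniformTriplesStatement, SimpleTriplesStatement] := by
  tfae_have 1 → 4 := length_to_triples
  tfae_have 4 → 5 := fun h V E _ _ ends hb hc _ => h V E ends hb hc
  tfae_have 5 → 3 := simple_to_uniform
  tfae_have 3 → 2 := uniform_to_weighted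
  tfae_have 2 → 1 := weighted_to_length
  tfae_finish

end Pool.Agent.Lib.MP_5ee2e8_co
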